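import Pool.Agent.H333R3.PI.E4

/-!
Project H572-PI, task E2.
-/

set_option autoImplicit false

namespace Pool.Agent.H333R3.PI

open Encodable
open Pool.Agent.Helper446.Defs Pool.Agent.Helper446.CB Pool.Agent.Helper446.CB.Ix
open Pool.Agent.H572R4 Pool.Agent.Helper446

theorem cpre {α : Type} [Primcodable α] {f g : α → List Bool} (hf : Computable f)
    (hg : Computable g) : ComputablePred fun a => f a <+: g a := by
  have h : ComputablePred fun a => (g a).take (f a).length = f a :=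
    RE.cp_eq (ctake hg (Computable.list_length.comp hf)) hf
  refine h.of_eq fun a => ?_
  rw [List.prefix_iff_eq_take, eq_comm]

/-- the string `ρ` witnesses that `l` minus `m` meets the cylinder of `σ` -/
def Wit (l m : List (List Bool)) (σ ρ : List Bool) : Prop :=
  σ <+: ρ ∧ (∃ τ ∈ l, τ <+: ρ) ∧ ∀ τ ∈ m, τ.length ≤ ρ.length ∧ ¬ τ <+: ρ

theorem wit_cp : ComputablePred fun x : ((List (List Bool) × List (List Bool)) × List Bool) ×
    List Bool => Wit x.1.1.1 x.1.1.2 x.1.2 x.2 := by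
  refine cp_and (cpre (by fun_prop) (by fun_prop)) (cp_and ?_ ?_)
  · exact cp_bex (p := fun (x : ((List (List Bool) × List (List Bool)) × List Bool) ×
      List Bool) (τ : List Bool) => τ <+: x.2) (cpre (by fun_prop) (by fun_prop))
      (l := fun x => x.1.1.1) (by fun_prop)
  · refine cp_ball (p := fun (x : ((List (List Bool) × List (List Bool)) × List Bool) ×
      List Bool) (τ : List Bool) => τ.length ≤ x.2.length ∧ ¬ τ <+: x.2) ?_
      (l := fun x => x.1.1.2) (by fun_prop)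
    exact cp_and (RE.cp_le (by fun_prop) (by fun_prop)) (cpre (by fun_prop) (by fun_prop)).not

theorem exists_ext (ρ : List Bool) : ∃ x : ℕ → Bool, seg x ρ.length = ρ := by
  refine ⟨fun i => (ρ[i]?).getD false, ?_⟩
  apply List.ext_getElem?
  intro i
  by_cases hi : i < ρ.length
  · rw [seg_getElem? _ hi, List.getElem?_eq_getElem hi]; rfl
  · rw [List.getElem?_eq_none (by rw [seg_length]; omega), List.getElem?_eq_none (by omega)]

theorem wit_iff (l m : List (List Bool)) (σ : List Bool) :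
    (∃ ρ, Wit l m σ ρ) ↔ ∃ x ∈ cylS l, x ∉ cylS m ∧ seg x σ.length = σ := by
  constructor
  · rintro ⟨ρ, h1, ⟨τ, hτ, h2⟩, h3⟩
    obtain ⟨x, hx⟩ := exists_ext ρ
    have key : ∀ τ : List Bool, τ <+: ρ → seg x τ.length = τ := fun τ h => by
      rw [← hx] at h
      exact (eq_seg_of_prefix h).symm
    refine ⟨x, ⟨τ, hτ, key τ h2⟩, ?_, key σ h1⟩
    rintro ⟨τ', hτ', h4⟩
    obtain ⟨h5, h6⟩ := h3 τ' hτ'
    apply h6
    rw [← h4, ← hx]
    exact seg_prefix x h5
  · rintro ⟨x, ⟨τ, hτ, h1⟩, h2, h3⟩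
    refine ⟨seg x (max (max σ.length τ.length) ((m.map List.length).sum)), ?_, ⟨τ, hτ, ?_⟩, ?_⟩
    · rw [seg_prefix_iff]
      exact ⟨(le_max_left _ _).trans (le_max_left _ _), h3⟩
    · rw [seg_prefix_iff]
      exact ⟨(le_max_right _ _).trans (le_max_left _ _), h1⟩
    · intro τ' hτ'
      have hle : τ'.length ≤ (m.map List.length).sum :=
        List.single_le_sum (by simp) _ (List.mem_map.2 ⟨τ', hτ', rfl⟩)
      rw [seg_length]
      refine ⟨hle.trans (le_max_right _ _), fun h => h2 ⟨τ', hτ', ?_⟩⟩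
      exact (seg_prefix_iff.1 h).2

theorem clf_int : ClF 1 fun x : List (List Bool) × ℕ => cylS x.1 ∩ (idx x.2).1 := by
  obtain ⟨T, hT, h⟩ := clf_cylS
  obtain ⟨S, hS, h'⟩ := idx_ClF
  refine ⟨fun x σ => T x.1 σ ∧ S x.2 σ, Pi.and ?_ ?_, fun i x => ?_⟩
  · exact hT.comp (f := fun y : (List (List Bool) × ℕ) × List Bool => (y.1.1, y.2)) (by fun_prop)
  · exact hS.comp (f := fun y : (List (List Bool) × ℕ) × List Bool => (y.1.2, y.2)) (by fun_prop)
  · rw [Set.mem_inter_iff, h, h']
    exact forall_and.symm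

/-- emptiness of the intersection -/
theorem sig_disj : Sig 1 fun x : List (List Bool) × ℕ => cylS x.1 ∩ (idx x.2).1 = ∅ := by
  have h1 := (clf_int.ext).comp (f := fun x : List (List Bool) × ℕ => (x, ([] : List Bool)))
    (by fun_prop)
  refine (Pi.not h1).of_iff fun x => ?_
  rw [mem_ext_iff]
  have : cyl [] = Set.univ := by
    ext y; simp [mem_cyl, seg_zero]
  rw [this, Set.inter_univ, Set.not_nonempty_iff_eq_empty]

theorem pi_sub : Pi 1 fun x : List (List Bool) × List (List Bool) => cylS x.1 ⊆ cylS x.2 := by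
  have h1 : Sig 1 fun x : List (List Bool) × List (List Bool) => ∃ ρ : List Bool,
      Wit x.1 x.2 [] ρ := by
    refine Sig.ex (n := 0) (p := fun (x : List (List Bool) × List (List Bool)) (ρ : List Bool) =>
      Wit x.1 x.2 [] ρ) (Sig.of_cp ?_)
    exact RE.cp_comp wit_cp (f := fun y : (List (List Bool) × List (List Bool)) × List Bool =>
      ((y.1, ([] : List Bool)), y.2)) (by fun_prop)
  refine h1.not.of_iff fun x => ?_
  rw [wit_iff]
  constructor
  · intro h y hy
    by_contra hc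
    exact h ⟨y, hy, hc, rfl⟩
  · rintro h ⟨y, hy, hc, -⟩
    exact hc (h hy)

theorem pi_cov : Pi 1 fun x : (List (List Bool) × List (List Bool)) × ℕ =>
    cylS x.1.1 ⊆ (idx x.2).1 ∪ cylS x.1.2 := by
  have h1 : Pi 1 fun x : (List (List Bool) × List (List Bool)) × ℕ => ∀ σ : List Bool,
      Wd x.2 σ → ¬ ∃ ρ, Wit x.1.1 x.1.2 σ ρ := by
    refine Pi.all (n := 0) (p := fun (x : (List (List Bool) × List (List Bool)) × ℕ)
      (σ : List Bool) => Wd x.2 σ → ¬ ∃ ρ, Wit x.1.1 x.1.2 σ ρ) (Pi.imp ?_ (Sig.not ?_))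
    · exact (sig_one.2 wd_re).comp (f := fun y : ((List (List Bool) × List (List Bool)) × ℕ) ×
        List Bool => (y.1.2, y.2)) (by fun_prop)
    · refine Sig.ex (n := 0) (p := fun (y : ((List (List Bool) × List (List Bool)) × ℕ) ×
        List Bool) (ρ : List Bool) => Wit y.1.1.1 y.1.1.2 y.2 ρ) (Sig.of_cp ?_)
      exact RE.cp_comp wit_cp (f := fun z : (((List (List Bool) × List (List Bool)) × ℕ) ×
        List Bool) × List Bool => ((z.1.1.1, z.1.2), z.2)) (by fun_prop)
  refine h1.of_iff fun x => ?_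
  constructor
  · intro h y hy
    by_contra hc
    rw [Set.mem_union, not_or] at hc
    obtain ⟨h2, h3⟩ := hc
    have h4 : ∃ n, Wd x.2 (seg y n) := by
      by_contra hh
      push Not at hh
      exact h2 hh
    obtain ⟨n, hn⟩ := h4
    refine h _ hn ((wit_iff _ _ _).2 ⟨y, hy, h3, ?_⟩)
    rw [seg_length]
  · intro h σ hσ hρ
    obtain ⟨y, hy, h2, h3⟩ := (wit_iff _ _ _).1 hρ
    rcases h hy with h4 | h4
    · have h5 : ∀ n, ¬ Wd x.2 (seg y n) := h4
      apply h5 σ.length
      rw [h3]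
      exact hσ
    · exact h2 h4

theorem taskE2 : TaskE2 := by
  intro e1 cy hcy
  have h1 : Sig 2 fun x : List (List Bool) × ℕ => ∃ m : List (List Bool),
      cylS m ∩ (idx x.2).1 = ∅ ∧ cylS x.1 ⊆ (idx x.2).1 ∪ cylS m ∧ cylS m ⊆ cylS x.1 := by
    refine Sig.ex (n := 1) (p := fun (x : List (List Bool) × ℕ) (m : List (List Bool)) =>
      cylS m ∩ (idx x.2).1 = ∅ ∧ cylS x.1 ⊆ (idx x.2).1 ∪ cylS m ∧ cylS m ⊆ cylS x.1) ?_
    refine Sig.and ?_ (Sig.and ?_ ?_)
    · exact (sig_disj.comp (f := fun y : (List (List Bool) × ℕ) × List (List Bool) =>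
        (y.2, y.1.2)) (by fun_prop)).succ
    · exact (pi_cov.comp (f := fun y : (List (List Bool) × ℕ) × List (List Bool) =>
        ((y.1.1, y.2), y.1.2)) (by fun_prop)).sig
    · exact (pi_sub.comp (f := fun y : (List (List Bool) × ℕ) × List (List Bool) =>
        (y.2, y.1.1)) (by fun_prop)).sig
  refine h1.of_iff fun x => ?_
  constructor
  · rintro ⟨m, h2, h3, h4⟩
    refine ⟨cy m, (e1 _).2 ⟨m, hcy m⟩, ?_, ?_⟩
    · refine Subtype.ext ?_
      rw [lb_inf, hcy]
      exact h2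
    · refine Subtype.ext ?_
      rw [lb_sup, lb_inf, hcy, hcy]
      show cylS x.1 = (cylS x.1 ∩ (idx x.2).1) ∪ cylS m
      ext y
      constructor
      · intro hy
        rcases h3 hy with h | h
        · exact Or.inl ⟨hy, h⟩
        · exact Or.inr h
      · rintro (h | h)
        · exact h.1
        · exact h4 h
  · rintro ⟨d, hd, h2, h3⟩
    obtain ⟨m, hm⟩ := (e1 d).1 hd
    have h2' : d.1 ∩ (idx x.2).1 = ∅ := congrArg Subtype.val h2
    have h3' : (cy x.1).1 = ((cy x.1).1 ∩ (idx x.2).1) ∪ d.1 := congrArg Subtype.val h3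
    rw [hm] at h2' h3'
    rw [hcy] at h3'
    refine ⟨m, h2', fun y hy => ?_, fun y hy => ?_⟩
    · rw [h3'] at hy
      rcases hy with h | h
      · exact Or.inl h.2
      · exact Or.inr h
    · rw [h3']
      exact Or.inr hy

end Pool.Agent.H333R3.PI
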